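import Pool.Agent.Q205.WV.Stm

/-! WV-VRS: scaling of the variance of the Cayley transform (project WV of helper205). -/

set_option autoImplicit false

open MeasureTheory Pool.Agent.W792.LL Pool.Agent.W792.WA
open scoped ComplexConjugate

namespace Pool.Agent.Q241.WV.VRS

lemma den_ne (x : ℝ) : (x : ℂ) - Complex.I ≠ 0 := by
  intro h
  have := congrArg Complex.im h
  simp at this

lemma norm_den (x : ℝ) : ‖(x : ℂ) - Complex.I‖ ^ 2 = 1 + x ^ 2 := by
  rw [← Complex.normSq_eq_norm_sq, Complex.normSq_apply]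
  simp
  ring

lemma norm_num' (x : ℝ) : ‖(x : ℂ) + Complex.I‖ ^ 2 = 1 + x ^ 2 := by
  rw [← Complex.normSq_eq_norm_sq, Complex.normSq_apply]
  simp
  ring

lemma norm_cay (x : ℝ) : ‖cay x‖ = 1 := by
  have h : ‖cay x‖ ^ 2 = 1 := by
    unfold cay
    rw [norm_div, div_pow, norm_num', norm_den]
    have : (1 + x ^ 2 : ℝ) ≠ 0 := by positivity
    field_simp
  have h0 := norm_nonneg (cay x)
  nlinarith

lemma continuous_cay : Continuous cay := by
  unfold cay
  exact (Complex.continuous_ofReal.add continuous_const).div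
    (Complex.continuous_ofReal.sub continuous_const) den_ne

lemma dist_cay (x y : ℝ) : ‖cay x - cay y‖ ^ 2 = 4 * (x - y) ^ 2 / ((1 + x ^ 2) * (1 + y ^ 2)) := by
  have e : cay x - cay y = 2 * Complex.I * ((y - x : ℝ) : ℂ) /
      (((x : ℂ) - Complex.I) * ((y : ℂ) - Complex.I)) := by
    unfold cay
    rw [div_sub_div _ _ (den_ne x) (den_ne y)]
    congr 1
    push_cast
    ring
  rw [e, norm_div, div_pow, norm_mul, norm_mul, norm_mul, mul_pow, mul_pow, mul_pow, norm_den,
    norm_den]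
  congr 1
  rw [Complex.norm_real, Real.norm_eq_abs, sq_abs, Complex.norm_I]
  norm_num
  ring

variable {ν : Measure ℝ} [IsProbabilityMeasure ν]

lemma integrable_of {g : ℝ → ℂ} (hg : Continuous g) (h1 : ∀ x, ‖g x‖ = 1) : Integrable g ν :=
  Integrable.of_bound hg.aestronglyMeasurable 1 (Filter.Eventually.of_forall fun x => (h1 x).le)

lemma inner_eq {g : ℝ → ℂ} (hg : Continuous g) (h1 : ∀ x, ‖g x‖ = 1) (b : ℂ) (hb : ‖b‖ = 1) :
    ∫ x, ‖g x - b‖ ^ 2 ∂ν = 2 - 2 * ((∫ x, g x ∂ν) * conj b).re := by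
  have e : ∀ x, ‖g x - b‖ ^ 2 = 2 - 2 * Complex.reCLM (g x * conj b) := by
    intro x
    rw [← Complex.normSq_eq_norm_sq, Complex.normSq_sub, Complex.normSq_eq_norm_sq,
      Complex.normSq_eq_norm_sq, h1 x, hb, Complex.reCLM_apply]
    norm_num
  have hi : Integrable (fun x => g x * conj b) ν := (integrable_of hg h1).mul_const _
  simp_rw [e]
  rw [integral_sub (integrable_const _) ((Complex.reCLM.integrable_comp hi).const_mul 2),
    integral_const, integral_const_mul, ContinuousLinearMap.integral_comp_comm _ hi,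
    integral_mul_const]
  simp

lemma outer_eq {g : ℝ → ℂ} (hg : Continuous g) (h1 : ∀ x, ‖g x‖ = 1) (m : ℂ)
    (hm : m = ∫ x, g x ∂ν) :
    Integrable (fun y => 2 - 2 * (m * conj (g y)).re) ν ∧
    ∫ y, (2 - 2 * (m * conj (g y)).re) ∂ν = 2 - 2 * ‖m‖ ^ 2 := by
  have hc : Integrable (fun x => conj (g x)) ν :=
    integrable_of (Complex.continuous_conj.comp hg) (fun x => by simp [h1 x])
  have hi : Integrable (fun x => m * conj (g x)) ν := hc.const_mul _
  have hi2 : Integrable (fun y => 2 * Complex.reCLM (m * conj (g y))) ν :=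
    (Complex.reCLM.integrable_comp hi).const_mul 2
  constructor
  · exact (integrable_const (2 : ℝ)).sub hi2
  · have e : ∀ y, 2 - 2 * (m * conj (g y)).re = 2 - 2 * Complex.reCLM (m * conj (g y)) := by
      intro y; rw [Complex.reCLM_apply]
    simp_rw [e]
    rw [integral_sub (integrable_const _) hi2,
      integral_const, integral_const_mul, ContinuousLinearMap.integral_comp_comm _ hi,
      integral_const_mul, integral_conj, ← hm, Complex.reCLM_apply, Complex.mul_conj,
      Complex.ofReal_re, Complex.normSq_eq_norm_sq]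
    simp

lemma pointwise (α : ℝ) (hα : 0 < α) (x y : ℝ) :
    min (α ^ 2) (1 / α ^ 2) * ‖cay x - cay y‖ ^ 2 ≤ ‖cay (α * x) - cay (α * y)‖ ^ 2 := by
  rw [dist_cay, dist_cay]
  have hα2 : 0 < α ^ 2 := by positivity
  have hx : 0 < 1 + x ^ 2 := by positivity
  have hy : 0 < 1 + y ^ 2 := by positivity
  have hx' : 0 < 1 + (α * x) ^ 2 := by positivity
  have hy' : 0 < 1 + (α * y) ^ 2 := by positivity
  have hN : 0 ≤ 4 * (x - y) ^ 2 / ((1 + x ^ 2) * (1 + y ^ 2)) := by positivity
  rcases le_total α 1 with h | h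
  · have h2 : α ^ 2 ≤ 1 := by nlinarith
    have a1 : 1 + (α * x) ^ 2 ≤ 1 + x ^ 2 := by nlinarith [sq_nonneg x, mul_pow α x 2]
    have a2 : 1 + (α * y) ^ 2 ≤ 1 + y ^ 2 := by nlinarith [sq_nonneg y, mul_pow α y 2]
    calc min (α ^ 2) (1 / α ^ 2) * (4 * (x - y) ^ 2 / ((1 + x ^ 2) * (1 + y ^ 2)))
        ≤ α ^ 2 * (4 * (x - y) ^ 2 / ((1 + x ^ 2) * (1 + y ^ 2))) :=
          mul_le_mul_of_nonneg_right (min_le_left _ _) hN
      _ = 4 * (α * x - α * y) ^ 2 / ((1 + x ^ 2) * (1 + y ^ 2)) := by ring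
      _ ≤ 4 * (α * x - α * y) ^ 2 / ((1 + (α * x) ^ 2) * (1 + (α * y) ^ 2)) := by
          apply div_le_div_of_nonneg_left (by positivity) (by positivity)
          exact mul_le_mul a1 a2 hy'.le hx.le
  · have h2 : 1 ≤ α ^ 2 := by nlinarith
    have a1 : 1 + (α * x) ^ 2 ≤ α ^ 2 * (1 + x ^ 2) := by nlinarith [mul_pow α x 2]
    have a2 : 1 + (α * y) ^ 2 ≤ α ^ 2 * (1 + y ^ 2) := by nlinarith [mul_pow α y 2]
    calc min (α ^ 2) (1 / α ^ 2) * (4 * (x - y) ^ 2 / ((1 + x ^ 2) * (1 + y ^ 2)))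
        ≤ 1 / α ^ 2 * (4 * (x - y) ^ 2 / ((1 + x ^ 2) * (1 + y ^ 2))) :=
          mul_le_mul_of_nonneg_right (min_le_right _ _) hN
      _ = 4 * (α * x - α * y) ^ 2 / ((α ^ 2 * (1 + x ^ 2)) * (α ^ 2 * (1 + y ^ 2))) := by
          field_simp
      _ ≤ 4 * (α * x - α * y) ^ 2 / ((1 + (α * x) ^ 2) * (1 + (α * y) ^ 2)) := by
          apply div_le_div_of_nonneg_left (by positivity) (by positivity)
          exact mul_le_mul a1 a2 hy'.le (by positivity)

theorem main : S_VRS := by
  intro ν hν α hα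
  set c : ℝ := min (α ^ 2) (1 / α ^ 2) with hc
  have hg1 := continuous_cay
  have hg2 : Continuous fun x : ℝ => cay (α * x) := continuous_cay.comp (continuous_const.mul continuous_id)
  have hn2 : ∀ x : ℝ, ‖cay (α * x)‖ = 1 := fun x => norm_cay _
  have hmap : ∫ x, cay x ∂(ν.map fun x => α * x) = ∫ x, cay (α * x) ∂ν :=
    integral_map (by fun_prop) continuous_cay.aestronglyMeasurable
  have key : ∀ y, c * (2 - 2 * ((∫ x, cay x ∂ν) * conj (cay y)).re) ≤
      2 - 2 * ((∫ x, cay (α * x) ∂ν) * conj (cay (α * y))).re := by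
    intro y
    rw [← inner_eq hg1 norm_cay (cay y) (norm_cay y), ← inner_eq hg2 hn2 (cay (α * y)) (norm_cay _),
      ← integral_const_mul]
    apply integral_mono
    · apply Integrable.const_mul
      refine Integrable.of_bound ((hg1.sub continuous_const).norm.pow 2).aestronglyMeasurable 4
        (Filter.Eventually.of_forall fun x => ?_)
      rw [Real.norm_eq_abs, abs_of_nonneg (by positivity)]
      have := norm_sub_le (cay x) (cay y)
      rw [norm_cay, norm_cay] at this
      nlinarith [norm_nonneg (cay x - cay y)]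
    · refine Integrable.of_bound ((hg2.sub continuous_const).norm.pow 2).aestronglyMeasurable 4
        (Filter.Eventually.of_forall fun x => ?_)
      rw [Real.norm_eq_abs, abs_of_nonneg (by positivity)]
      have := norm_sub_le (cay (α * x)) (cay (α * y))
      rw [norm_cay, norm_cay] at this
      nlinarith [norm_nonneg (cay (α * x) - cay (α * y))]
    · intro x
      exact pointwise α hα x y
  obtain ⟨i1, o1⟩ := outer_eq (ν := ν) hg1 norm_cay _ rfl
  obtain ⟨i2, o2⟩ := outer_eq (ν := ν) hg2 hn2 _ rfl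
  have h := integral_mono (i1.const_mul c) i2 key
  rw [integral_const_mul, o1, o2] at h
  unfold vr
  rw [hmap]
  linarith

end Pool.Agent.Q241.WV.VRS
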